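import Mathlib

namespace Pool.Agent.Results.MP_98b297_co.Counter
open Set

/-- a bigraph on the vertex type V: a graph with a fixed bipartition (left, complement). -/
structure Bigraph (V : Type) where
  G : SimpleGraph V
  left : Set V
  bip : ∀ v w, G.Adj v w → (v ∈ left ↔ w ∉ left)

section
variable {V : Type} (B : Bigraph V)

def edges : Set (V × V) := {e | e.1 ∈ B.left ∧ B.G.Adj e.1 e.2}

def IsAut (φ : Equiv.Perm V) : Prop :=
  (∀ v w, B.G.Adj (φ v) (φ w) ↔ B.G.Adj v w) ∧ ∀ v, φ v ∈ B.left ↔ v ∈ B.left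

def Fix (φ : Equiv.Perm V) : Set V := {v | φ v = v}

def IsCutInv (φ : Equiv.Perm V) : Prop :=
  IsAut B φ ∧ φ ≠ 1 ∧ φ * φ = 1 ∧ ¬ (B.G.induce (Fix φ)ᶜ).Preconnected

/-- L is a union of components of G - Fix: it avoids Fix and is closed under adjacency there. -/
def IsFold (φ : Equiv.Perm V) (L : Set V) : Prop :=
  IsCutInv B φ ∧ (∀ v ∈ L, ∀ w, w ∉ Fix φ → B.G.Adj v w → w ∈ L) ∧
    Disjoint L (Fix φ) ∧ Disjoint L (φ '' L) ∧ Disjoint (Fix φ) (φ '' L) ∧
    L ∪ Fix φ ∪ φ '' L = univ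

open Classical in
noncomputable def foldMap (φ : Equiv.Perm V) (L : Set V) (v : V) : V := if v ∈ L then v else φ v

def pull (φ : Equiv.Perm V) (L : Set V) (F : Set (V × V)) : Set (V × V) :=
  {e | e ∈ edges B ∧ (foldMap φ L e.1, foldMap φ L e.2) ∈ F}

def CutPercolating : Prop :=
  ∃ (m : ℕ) (E : ℕ → Set (V × V)), E 0 ⊆ edges B ∧ (E 0).ncard = 1 ∧ E m = edges B ∧
    ∀ i < m, ∃ φ L, IsFold B φ L ∧ E (i + 1) = pull B φ L (E i)

def foldGroup : Subgroup (Equiv.Perm V) := Subgroup.closure {φ | ∃ L, IsFold B φ L}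

def FoldTransitive : Prop :=
  (edges B).Nonempty ∧ ∀ e ∈ edges B, ∀ f ∈ edges B, ∃ g ∈ foldGroup B, (g e.1, g e.2) = f
end

abbrev W : Type := Bool × Bool × Fin 7

def D (x : Fin 7) : Bool := x == 1 || x == 2 || x == 4

def adj (v w : W) : Bool :=
  v.1 == w.1 && ((v.2.1 && !w.2.1 && D (v.2.2 - w.2.2)) || (!v.2.1 && w.2.1 && D (w.2.2 - v.2.2)))

lemma a1 : ∀ v w : W, adj v w = true → adj w v = true ∧ v.1 = w.1 ∧ v.2.1 = !w.2.1 := by
  decide +kernel

lemma a2 : ∀ v : W, adj v v = false := by decide +kernel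

def H : Bigraph W where
  G := ⟨fun v w => adj v w = true, ⟨fun v w h => (a1 v w h).1⟩, ⟨fun v h => by simp [a2] at h⟩⟩
  left := {v | v.2.1 = true}
  bip := fun v w h => by
    have := (a1 v w h).2.2
    simp [this]

lemma a3 : ∀ v w : W, v ≠ w → v.1 = w.1 → v.2.1 = w.2.1 → ∃ x, adj v x = true ∧ adj w x = true := by
  decide +kernel

lemma a4 : ∀ v w x : W, adj v x = true → adj w x = true → v ≠ w →
    ∀ y, adj v y = true → adj w y = true → x = y := by
  decide +kernel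

lemma a5 : ∀ v w : W, v ≠ w → ∃ a, (adj v a && !adj w a) = true ∧
    ∃ b, (adj v b && !adj w b) = true ∧ a ≠ b := by
  decide +kernel

lemma a6 : ∀ v w : W, v.1 = w.1 → ∃ a, adj v a = true ∧ (a = w ∨ ∃ b, adj a b = true ∧
    (b = w ∨ adj b w = true)) := by
  decide +kernel

def swf (a b : Fin 7) (v : W) : W :=
  (!v.1, v.2.1, if v.1 then a * a * (v.2.2 - b) else a * v.2.2 + b)

lemma s1 : ∀ a b, D a = true → ∀ v, swf a b (swf a b v) = v := by decide +kernel

lemma s2 : ∀ a b, D a = true → ∀ v w, adj (swf a b v) (swf a b w) = adj v w := by decide +kernel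

lemma s3 : ∀ v w, adj v w = true → v.2.1 = true → ∀ x y, adj x y = true → x.2.1 = true →
    v.1 ≠ x.1 → ∃ a, D a = true ∧ ∃ b, swf a b v = x ∧ swf a b w = y := by decide +kernel

def sw (a b : Fin 7) (h : D a = true) : Equiv.Perm W := ⟨swf a b, swf a b, s1 a b h, s1 a b h⟩

lemma sw_ne (a b : Fin 7) (h : D a = true) (v : W) : v ∉ Fix (sw a b h) := by
  intro e
  have : (!v.1) = v.1 := congrArg Prod.fst e
  simp at this

lemma sw_fold (a b : Fin 7) (h : D a = true) : IsFold H (sw a b h) {v | v.1 = true} := by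
  refine ⟨⟨⟨fun v w => ?_, fun v => Iff.rfl⟩, fun e => ?_, ?_, fun hc => ?_⟩, ?_, ?_, ?_, ?_, ?_⟩
  · show adj (swf a b v) (swf a b w) = true ↔ adj v w = true
    rw [s2 a b h]
  · exact sw_ne a b h (true, true, 0) (by rw [e]; rfl)
  · exact Equiv.ext (s1 a b h)
  · obtain ⟨p⟩ := hc ⟨(true, true, 0), sw_ne a b h _⟩ ⟨(false, true, 0), sw_ne a b h _⟩
    have : ∀ (u v : ((Fix (sw a b h))ᶜ : Set W)) (_ : (H.G.induce (Fix (sw a b h))ᶜ).Walk u v),
        u.1.1 = v.1.1 := by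
      intro u v p
      induction p with
      | nil => rfl
      | cons e _ ih => exact (a1 _ _ e).2.1.trans ih
    exact absurd (this _ _ p) (by simp)
  · intro v hv w _ e
    exact (a1 v w e).2.1.symm.trans hv
  · exact disjoint_left.mpr fun v _ => sw_ne a b h v
  · refine disjoint_left.mpr ?_
    rintro v hv ⟨u, hu, rfl⟩
    have h1 : (!u.1) = true := hv
    have h2 : u.1 = true := hu
    simp [h2] at h1
  · exact disjoint_left.mpr fun v hv _ => sw_ne a b h v hv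
  · refine eq_univ_of_forall fun v => ?_
    cases e : v.1
    · refine Or.inr ⟨swf a b v, ?_, s1 a b h v⟩
      show (!v.1) = true
      simp [e]
    · exact Or.inl (Or.inl e)

lemma cross {e f : W × W} (he : e ∈ edges H) (hf : f ∈ edges H) (h : e.1.1 ≠ f.1.1) :
    ∃ g ∈ foldGroup H, (g e.1, g e.2) = f := by
  obtain ⟨a, h1, b, h2, h3⟩ := s3 _ _ he.2 he.1 _ _ hf.2 hf.1 h
  exact ⟨sw a b h1, Subgroup.subset_closure ⟨_, sw_fold a b h1⟩, Prod.ext h2 h3⟩

lemma e0 (c : Bool) : ((c, true, 1), (c, false, 0)) ∈ edges H := by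
  cases c <;> exact ⟨rfl, rfl⟩

lemma trans : FoldTransitive H := by
  refine ⟨⟨_, e0 true⟩, fun e he f hf => ?_⟩
  by_cases h : e.1.1 = f.1.1
  · obtain ⟨g, g1, g2⟩ := cross he (e0 (!e.1.1)) (by simp)
    obtain ⟨k, k1, k2⟩ := cross (e0 (!e.1.1)) hf (by simp [h])
    refine ⟨k * g, mul_mem k1 g1, ?_⟩
    rw [← g2] at k2
    exact k2
  · exact cross he hf h

section
variable {φ : Equiv.Perm W} {L : Set W} (hf : IsFold H φ L)
include hf

lemma inv (v : W) : φ (φ v) = v := congrArg (fun g : Equiv.Perm W => g v) hf.1.2.2.1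

lemma pres {v w : W} (h : adj v w = true) : adj (φ v) (φ w) = true := (hf.1.1.1 v w).mpr h

lemma side (v : W) : (φ v).2.1 = v.2.1 := Bool.eq_iff_iff.mpr (hf.1.1.2 v)

lemma other {v : W} (hv : v ∈ L) : v.1 ≠ (φ v).1 := by
  intro hc
  have hn : ∀ u ∈ L, φ u ≠ u := fun u hu e => disjoint_left.mp hf.2.2.1 hu e
  have hd : ∀ u ∈ L, φ u ∉ L := fun u hu e => disjoint_left.mp hf.2.2.2.1 e ⟨u, hu, rfl⟩
  obtain ⟨a, h2, b, h3, h1⟩ := a5 v (φ v) (hn v hv).symm
  simp only [Bool.and_eq_true, Bool.not_eq_true'] at h2 h3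
  obtain ⟨h2, h4⟩ := h2
  obtain ⟨h3, h5⟩ := h3
  have ha : a ∈ L := hf.2.1 v hv a (fun e => by
    have := pres hf h2
    rw [show φ a = a from e, h4] at this
    exact absurd this (by simp)) h2
  have hb : b ∈ L := hf.2.1 v hv b (fun e => by
    have := pres hf h3
    rw [show φ b = b from e, h5] at this
    exact absurd this (by simp)) h3
  obtain ⟨x, x1, x2⟩ := a3 a (φ b) (fun e => hd b hb (e ▸ ha))
    ((a1 _ _ h2).2.1.symm.trans (hc.trans (a1 _ _ (pres hf h3)).2.1))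
    (by rw [side hf, (a1 _ _ (a1 _ _ h2).1).2.2, (a1 _ _ (a1 _ _ h3).1).2.2])
  by_cases hx : φ x = x
  · have := pres hf x2
    rw [inv hf, hx] at this
    exact hn v hv (a4 a b x x1 this h1 v (a1 _ _ h2).1 (a1 _ _ h3).1 ▸ hx)
  · refine hd b hb (hf.2.1 x (hf.2.1 a ha x hx x1) _ (fun e => ?_) (a1 _ _ x2).1)
    exact hn b hb ((inv hf b).symm.trans e).symm

lemma step {v w : W} (hv : v ∈ L) (h : adj v w = true) : w ∈ L := by
  refine hf.2.1 v hv w (fun e => other hf hv ?_) h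
  have := pres hf h
  rw [show φ w = w from e] at this
  exact (a1 _ _ h).2.1.trans (a1 _ _ this).2.1.symm

lemma whole {v w : W} (h : v.1 = w.1) (hv : v ∈ L) : w ∈ L := by
  obtain ⟨a, h1, rfl | ⟨b, h2, rfl | h3⟩⟩ := a6 v w h
  · exact step hf hv h1
  · exact step hf (step hf hv h1) h2
  · exact step hf (step hf (step hf hv h1) h2) h3

lemma copy {v w : W} (h : v.1 = w.1) : (φ v).1 = (φ w).1 := by
  have k : ∀ {v w : W}, adj v w = true → (φ v).1 = (φ w).1 := fun h => (a1 _ _ (pres hf h)).2.1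
  obtain ⟨a, h1, rfl | ⟨b, h2, rfl | h3⟩⟩ := a6 v w h
  · exact k h1
  · exact (k h1).trans (k h2)
  · exact (k h1).trans ((k h2).trans (k h3))

lemma keep {F : Set (W × W)} (hF : ∀ e ∈ F, ∀ f ∈ F, e.1.1 = f.1.1 → e = f) :
    ∀ e ∈ pull H φ L F, ∀ f ∈ pull H φ L F, e.1.1 = f.1.1 → e = f := by
  rintro e ⟨e1, e2⟩ f ⟨f1, f2⟩ h
  have c1 := (a1 _ _ e1.2).2.1
  have c2 := h.trans (a1 _ _ f1.2).2.1
  unfold foldMap at e2 f2
  by_cases hv : e.1 ∈ L
  · rw [if_pos hv, if_pos (whole hf c1 hv)] at e2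
    rw [if_pos (whole hf h hv), if_pos (whole hf c2 hv)] at f2
    exact hF _ e2 _ f2 h
  · rw [if_neg hv, if_neg (fun x => hv (whole hf c1.symm x))] at e2
    rw [if_neg (fun x => hv (whole hf h.symm x)), if_neg (fun x => hv (whole hf c2.symm x))] at f2
    have := hF _ e2 _ f2 (copy hf h)
    exact Prod.ext (φ.injective (congrArg Prod.fst this)) (φ.injective (congrArg Prod.snd this))
end

theorem result : ∃ (V : Type) (_ : Finite V) (B : Bigraph V),
    FoldTransitive B ∧ ¬ CutPercolating B := by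
  refine ⟨W, inferInstance, H, trans, ?_⟩
  rintro ⟨m, E, -, h1, h2, h3⟩
  have key : ∀ i ≤ m, ∀ e ∈ E i, ∀ f ∈ E i, e.1.1 = f.1.1 → e = f := by
    intro i
    induction i with
    | zero =>
      obtain ⟨a, ha⟩ := ncard_eq_one.mp h1
      intro _ e he f hf _
      rw [ha] at he hf
      exact he.trans hf.symm
    | succ i ih =>
      intro hi
      obtain ⟨φ, L, hf, e⟩ := h3 i hi
      rw [e]
      exact keep hf (ih (by omega))
  have := key m le_rfl ((true, true, 1), (true, false, 0)) (by rw [h2]; exact e0 true)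
    ((true, true, 2), (true, false, 0)) (by rw [h2]; exact ⟨rfl, rfl⟩) rfl
  exact absurd this (by decide)

end Pool.Agent.Results.MP_98b297_co.Counter
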